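import Pool.Agent.H46.RF.Stm

set_option autoImplicit false

namespace H65.RF

open ZFSet (pair)
open Pool.Agent.W868
open MeasureTheory H14.ES H46.RF

theorem brf (hBMS : S_BMS) (hGEN : S_GEN) (hCNT : S_CNT) (hEQV : S_EQV) : S_BRF := by
  classical
  intro M hM hMc
  have hae := hGEN M hM hMc
  rw [ae_iff] at hae
  obtain ⟨t, hst, ht, ht0⟩ := exists_measurable_superset_of_null hae
  have hN : ∀ r, r ∉ t → IsGen M (Th M r) := by
    intro r hr
    by_contra h
    exact hr (hst h)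
  have hne : ∃ r₀, r₀ ∉ t := by
    by_contra h
    push Not at h
    have : t = Set.univ := Set.eq_univ_of_forall h
    rw [this, measure_univ] at ht0
    exact one_ne_zero ht0
  obtain ⟨r₀, h0⟩ := hne
  have him : ∀ r : ℕ → Bool, ((↑) '' {T : P M | T.1 ∈ Th M r} : Set ZFSet.{0}) = Th M r := by
    intro r
    ext T
    constructor
    · rintro ⟨T', hT', rfl⟩
      exact hT'
    · intro hT
      exact ⟨⟨T, hT.1⟩, hT, rfl⟩
  have hsel : ∀ r : ℕ → Bool, (if r ∈ t then r₀ else r) ∉ t := by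
    intro r
    split_ifs with h
    · exact h0
    · exact h
  let Θ : (ℕ → Bool) → Gen M := fun r =>
    ⟨{T : P M | T.1 ∈ Th M (if r ∈ t then r₀ else r)}, by
      rw [him]
      exact hN _ (hsel r)⟩
  have hΘ : ∀ r, r ∉ t → ext M ((↑) '' (Θ r).1) = ext M (Th M r) := by
    intro r hr
    have h1 : ((↑) '' (Θ r).1 : Set ZFSet.{0}) = Th M (if r ∈ t then r₀ else r) := him _
    rw [h1, if_neg hr]
  refine ⟨Θ, ?_, ⟨tᶜ, ht.compl, by rw [compl_compl]; exact ht0, ?_⟩, ?_⟩
  · have hm : Measurable (fun r => ({T : P M | T.1 ∈ Th M (if r ∈ t then r₀ else r)} :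
        Set (P M))) := by
      rw [measurable_set_iff]
      intro T
      apply measurableSet_setOf.1
      have h2 : {r : ℕ → Bool | T ∈ ({T : P M | T.1 ∈ Th M (if r ∈ t then r₀ else r)} :
          Set (P M))} = (t ∩ {_r | r₀ ∈ body T.1}) ∪ (tᶜ ∩ body T.1) := by
        ext r
        by_cases hr : r ∈ t
        · simp [hr, Th, T.2]
        · simp [hr, Th, T.2]
      rw [h2]
      refine (ht.inter ?_).union (ht.compl.inter (hBMS.2.1 _))
      by_cases h : r₀ ∈ body T.1
      · simp [h]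
      · simp [h]
    exact hm.subtype_mk
  · intro G
    refine (hCNT M hM hMc (ext M ((↑) '' G.1))).mono ?_
    intro r hr
    obtain ⟨h1, h2⟩ := hr
    show ext M (Th M r) = ext M ((↑) '' G.1)
    rw [← hΘ r h1]
    exact h2
  · intro w hw
    have h1 : ∀ᵐ r ∂(mu ℕ), r ∉ t := measure_eq_zero_iff_ae_notMem.1 ht0
    have h2 : ∀ᵐ r ∂(mu ℕ), w r ∉ t := hw.1.quasiMeasurePreserving.ae h1
    filter_upwards [h1, h2] with r hr1 hr2
    show ext M ((↑) '' (Θ (w r)).1) = ext M ((↑) '' (Θ r).1)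
    rw [hΘ r hr1, hΘ _ hr2]
    exact hEQV M hM w hw r

end H65.RF
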