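import Pool.Agent.H46.RF.Stm

set_option autoImplicit false

namespace H65.RF

open ZFSet (pair)
open Pool.Agent.W868
open MeasureTheory H14.ES H46.RF

theorem cnt (hREA : S_REA) : S_CNT := by
  classical
  intro M hM hMc N
  by_cases hne : ∃ r : ℕ → Bool, ext M (Th M r) = N
  · obtain ⟨r₀, h0⟩ := hne
    have hN : N.Countable := by
      rw [← h0]
      exact hMc.image _
    have hz : ∀ r : {r : ℕ → Bool // ext M (Th M r) = N}, ∃ z ∈ N, ∀ i, nat i ∈ z ↔ r.1 i = true := by
      intro r
      obtain ⟨z, hz, h1⟩ := hREA M hM r.1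
      exact ⟨z, r.2 ▸ hz, h1⟩
    choose f hf hfi using hz
    have : Countable N := hN.to_subtype
    have hinj : Function.Injective (fun r : {r : ℕ → Bool // ext M (Th M r) = N} =>
        (⟨f r, hf r⟩ : N)) := by
      intro r r' h
      have h1 : f r = f r' := congrArg Subtype.val h
      apply Subtype.ext
      funext i
      have e1 := hfi r i
      have e2 := hfi r' i
      rw [h1] at e1
      have e3 : r.1 i = true ↔ r'.1 i = true := e1.symm.trans e2
      exact Bool.eq_iff_iff.2 e3
    exact Set.countable_coe_iff.1 hinj.countable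
  · have : {r : ℕ → Bool | ext M (Th M r) = N} = ∅ := by
      rw [Set.eq_empty_iff_forall_notMem]
      intro r hr
      exact hne ⟨r, hr⟩
    rw [this]
    exact Set.countable_empty

end H65.RF
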