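import Pool.Agent.H46.RF.Stm

set_option autoImplicit false

namespace H65.RF

open ZFSet (pair)
open Pool.Agent.W868
open MeasureTheory H14.ES H46.RF

theorem gen (hWRD : S_WRD) (_hBMS : S_BMS) (hDEN : S_DEN) : S_GEN := by
  intro M hM hMc
  obtain ⟨-, -, -, -, -, hW⟩ := hWRD
  obtain ⟨-, -, ⟨Wd, hWd, hWdm⟩, -⟩ := hW M hM
  have h1 : ∀ᵐ r ∂(mu ℕ), ∀ T ∈ M, mu ℕ (body T) = 0 → r ∉ body T := by
    rw [ae_ball_iff hMc]
    intro T _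
    by_cases h0 : mu ℕ (body T) = 0
    · have : ∀ᵐ r ∂(mu ℕ), r ∉ body T := measure_eq_zero_iff_ae_notMem.1 h0
      filter_upwards [this] with r hr _ using hr
    · exact Filter.Eventually.of_forall fun r h => absurd h h0
  have h2 : ∀ᵐ r ∂(mu ℕ), ∀ D ∈ M, (∀ T ∈ D, T ∈ P M) → (∀ S ∈ P M, ∃ T ∈ D, T ⊆ S) →
      ∃ T ∈ D, r ∈ body T := by
    rw [ae_ball_iff hMc]
    intro D hD
    by_cases hc : (∀ T ∈ D, T ∈ P M) ∧ (∀ S ∈ P M, ∃ T ∈ D, T ⊆ S)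
    · have := hDEN M hM hMc D hD hc.1 hc.2
      filter_upwards [this] with r hr _ _ using hr
    · exact Filter.Eventually.of_forall fun r ha hb => absurd ⟨ha, hb⟩ hc
  filter_upwards [h1, h2] with r hr1 hr2
  have hWt : IsTree Wd := ⟨fun z hz => (hWdm z).1 hz, fun r n _ => (hWdm _).2 ⟨r, n, rfl⟩⟩
  have hWb : body Wd = Set.univ := by
    ext x
    simp only [body, Set.mem_setOf_eq, Set.mem_univ, iff_true]
    exact fun n => (hWdm _).2 ⟨x, n, rfl⟩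
  refine ⟨fun T hT => hT.1, ⟨Wd, ⟨⟨hWd, hWt, ?_⟩, ?_⟩⟩, ?_, ?_, ?_⟩
  · rw [hWb, measure_univ]
    exact one_pos
  · rw [hWb]; exact Set.mem_univ _
  · intro S hS T hT hST
    exact ⟨hT, fun n => hST (hS.2 n)⟩
  · intro S hS T hT
    have hd : Dfn M M fun w : Fin 1 → ZFSet.{0} => w 0 ∈ T :=
      Dfn.mem (DfnF.proj 0) (DfnF.const hT.1.1)
    have hU : ZFSet.sep (fun z => z ∈ T) S ∈ M := hM.sep_mem (Q := fun z => z ∈ T) hd hS.1.1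
    have hmem : ∀ z, z ∈ ZFSet.sep (fun z => z ∈ T) S ↔ z ∈ S ∧ z ∈ T := fun z => ZFSet.mem_sep
    have hb : r ∈ body (ZFSet.sep (fun z => z ∈ T) S) :=
      fun n => (hmem _).2 ⟨hS.2 n, hT.2 n⟩
    refine ⟨ZFSet.sep (fun z => z ∈ T) S, ⟨⟨hU, ⟨?_, ?_⟩, ?_⟩, hb⟩, ?_, ?_⟩
    · intro z hz
      exact hS.1.2.1.word z ((hmem z).1 hz).1
    · intro x n hx
      obtain ⟨ha, hb⟩ := (hmem _).1 hx
      exact (hmem _).2 ⟨hS.1.2.1.down x n ha, hT.1.2.1.down x n hb⟩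
    · rw [pos_iff_ne_zero]
      intro h0
      exact hr1 _ hU h0 hb
    · intro z hz
      exact ((hmem z).1 hz).1
    · intro z hz
      exact ((hmem z).1 hz).2
  · intro D hD hDP hDd
    obtain ⟨T, hT, hb⟩ := hr2 D hD hDP hDd
    exact ⟨T, hT, ⟨hDP T hT, hb⟩⟩

end H65.RF
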